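import Mathlib

set_option autoImplicit false

namespace Pool.Agent.W20.ET

/-- the multisets of `h` elements of `A` with sum `n` -/
def reps (A : Set ℕ) (h n : ℕ) : Set (Multiset ℕ) :=
  {s | Multiset.card s = h ∧ (∀ a ∈ s, a ∈ A) ∧ s.sum = n}

theorem reps_finite (A : Set ℕ) (h n : ℕ) : (reps A h n).Finite := by
  have : (reps A h n) ⊆ (fun f : Fin h → Fin (n + 1) =>
      Multiset.ofList (List.ofFn (fun i => ((f i : Fin (n + 1)) : ℕ)))) '' Set.univ := by
    rintro s ⟨h1, _, h3⟩
    obtain ⟨l, rfl⟩ := Quot.exists_rep s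
    have hl : l.length = h := by simpa using h1
    subst hl
    have hle : ∀ i : Fin l.length, l.get i < n + 1 := by
      intro i
      have h4 : l.get i ∈ (l : Multiset ℕ) := by
        rw [Multiset.mem_coe]
        exact List.get_mem l i
      have h5 : l.get i ≤ (l : Multiset ℕ).sum := Multiset.single_le_sum (by simp) _ h4
      have h6 : (l : Multiset ℕ).sum = n := h3
      omega
    refine ⟨fun i => ⟨l.get i, hle i⟩, trivial, ?_⟩
    have : List.ofFn (fun i : Fin l.length => l.get i) = l := List.ofFn_get l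
    simp only
    rw [this]
    rfl
  exact (Set.finite_univ.image _).subset this

/-- Injection lemma: different scaled representations. -/
theorem card_le (A : Set ℕ) (h : ℕ) {ι : Type} (S : Finset ι) (N : ℕ) (t : ι → Multiset ℕ)
    (ht : ∀ i ∈ S, t i ∈ reps A h N) (hinj : ∀ i ∈ S, ∀ j ∈ S, t i = t j → i = j) :
    S.card ≤ (reps A h N).ncard := by
  classical
  have h1 : (S.image t : Set (Multiset ℕ)) ⊆ reps A h N := by
    intro x hx
    rw [Finset.coe_image] at hx
    obtain ⟨i, hi, rfl⟩ := hx
    exact ht i hi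
  have h2 : (S.image t).card = S.card := Finset.card_image_of_injOn
    (fun i hi j hj hij => hinj i hi j hj hij)
  rw [← h2, ← Set.ncard_coe_finset]
  exact Set.ncard_le_ncard h1 (reps_finite A h N)

/-- scaling by products of multipliers -/
theorem prod_mul_mem (A : Set ℕ) (m : ℕ → ℕ) (hm : ∀ i, ∀ a ∈ A, m i * a ∈ A) (S : Finset ℕ) :
    ∀ a ∈ A, (∏ i ∈ S, m i) * a ∈ A := by
  classical
  induction S using Finset.induction_on with
  | empty => intro a ha; simpa using ha
  | insert i S hi ih =>
    intro a ha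
    rw [Finset.prod_insert hi, mul_assoc]
    exact hm i _ (ih a ha)

theorem scale_mem (A : Set ℕ) (h n c : ℕ) (hc : ∀ a ∈ A, c * a ∈ A) (s : Multiset ℕ)
    (hs : s ∈ reps A h n) : s.map (fun a => c * a) ∈ reps A h (c * n) := by
  obtain ⟨h1, h2, h3⟩ := hs
  refine ⟨by rw [Multiset.card_map]; exact h1, ?_, ?_⟩
  · intro a ha
    obtain ⟨b, hb, rfl⟩ := Multiset.mem_map.1 ha
    exact hc b (h2 b hb)
  · rw [Multiset.sum_map_mul_left, Multiset.map_id', h3]

/-- the main counting statement: pairwise coprime multipliers -/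
theorem coprime_count (A : Set ℕ) (h : ℕ) (m : ℕ → ℕ) (S : Finset ℕ) (h2 : 2 ≤ h)
    (hm : ∀ i, ∀ a ∈ A, m i * a ∈ A) (h1 : ∀ i, 1 < m i)
    (hco : ∀ i j, i ≠ j → Nat.Coprime (m i) (m j))
    (h0 : 0 ∉ A ∨ ∀ i, m i ∉ A)
    (hrep : ∀ i ∈ S, ∃ s, s ∈ reps A h (m i)) :
    S.card ≤ (reps A h (∏ i ∈ S, m i)).ncard := by
  classical
  choose! t ht using hrep
  refine card_le A h S _ (fun i => (t i).map (fun a => (∏ j ∈ S.erase i, m j) * a)) ?_ ?_
  · intro i hi
    have := scale_mem A h (m i) (∏ j ∈ S.erase i, m j) (prod_mul_mem A m hm _) (t i) (ht i hi)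
    rwa [Finset.prod_erase_mul S m hi] at this
  · intro i hi j hj hij
    by_contra hne
    set N := ∏ k ∈ S, m k with hN
    have hNpos : 0 < N := Finset.prod_pos (fun k _ => lt_trans Nat.zero_lt_one (h1 k))
    -- every element is divisible by N
    have hdvd : ∀ x ∈ (t i).map (fun a => (∏ k ∈ S.erase i, m k) * a), N ∣ x := by
      intro x hx
      have hx' := hx
      rw [hij] at hx'
      obtain ⟨a, _, ha⟩ := Multiset.mem_map.1 hx
      obtain ⟨b, _, hb⟩ := Multiset.mem_map.1 hx'
      have d1 : (∏ k ∈ S.erase i, m k) ∣ x := ⟨a, ha.symm⟩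
      have d2 : m i ∣ x := by
        have : m i ∣ ∏ k ∈ S.erase j, m k :=
          Finset.dvd_prod_of_mem m (Finset.mem_erase.2 ⟨hne, hi⟩)
        exact this.trans ⟨b, hb.symm⟩
      have hc : Nat.Coprime (∏ k ∈ S.erase i, m k) (m i) := by
        apply Nat.Coprime.prod_left
        intro k hk
        exact hco k i (Finset.ne_of_mem_erase hk)
      have := hc.mul_dvd_of_dvd_of_dvd d1 d2
      rwa [Finset.prod_erase_mul S m hi] at this
    -- every element is smaller than N
    have hti := ht i hi
    obtain ⟨c1, c2, c3⟩ := hti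
    have hlt : ∀ a ∈ t i, a < m i := by
      intro a ha
      have hle : a ≤ m i := by
        rw [← c3]
        exact Multiset.single_le_sum (by simp) _ ha
      rcases lt_or_eq_of_le hle with hl | he
      · exact hl
      · exfalso
        rcases h0 with h0 | h0
        · obtain ⟨s', hs'⟩ := Multiset.exists_cons_of_mem ha
          rw [hs'] at c1 c3 c2
          rw [Multiset.card_cons] at c1
          rw [Multiset.sum_cons] at c3
          have hs0 : s'.sum = 0 := by omega
          have hcard : 0 < Multiset.card s' := by omega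
          obtain ⟨b, hb⟩ := Multiset.card_pos_iff_exists_mem.1 hcard
          have hb0 : b = 0 := by
            have : b ≤ s'.sum := Multiset.single_le_sum (by simp) _ hb
            omega
          apply h0
          rw [← hb0]
          exact c2 b (Multiset.mem_cons_of_mem hb)
        · exact h0 i (he ▸ c2 a ha)
    have hzero : ∀ a ∈ t i, a = 0 := by
      intro a ha
      have hx := hdvd _ (Multiset.mem_map_of_mem (fun a => (∏ k ∈ S.erase i, m k) * a) ha)
      have hP : 0 < ∏ k ∈ S.erase i, m k :=
        Finset.prod_pos (fun k _ => lt_trans Nat.zero_lt_one (h1 k))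
      have hlt' : (∏ k ∈ S.erase i, m k) * a < N := by
        rw [hN, ← Finset.prod_erase_mul S m hi]
        exact Nat.mul_lt_mul_of_pos_left (hlt a ha) hP
      have := Nat.eq_zero_of_dvd_of_lt hx hlt'
      rcases Nat.mul_eq_zero.1 this with h | h
      · omega
      · exact h
    have : (t i).sum = 0 := by
      apply Multiset.sum_eq_zero
      exact hzero
    have := h1 i
    omega

end Pool.Agent.W20.ET
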