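import Pool.Agent.W20.ET.Mult

set_option autoImplicit false

namespace Pool.Agent.W20.ET

/-- an asymptotic basis of positive integers has elements with arbitrarily large prime factors -/
theorem not_smooth (A : Set ℕ) (h : ℕ) (P : ℕ)
    (hsm : ∀ a ∈ A, a ≠ 0 → ∀ p, p.Prime → p ∣ a → p ≤ P) (h0 : 0 ∉ A)
    (n₀ : ℕ) (hA : ∀ n, n₀ ≤ n → ∃ s, s ∈ reps A h n) : False := by
  classical
  -- elements below `2^t` correspond to exponent vectors
  have key : ∀ t : ℕ, (2 : ℕ) ^ t ≤ n₀ + (((t + 1) ^ (P + 1)) ^ h) := by
    intro t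
    by_contra hcon
    push Not at hcon
    -- map from [n₀, 2^t) to functions
    have hex : ∀ n ∈ Finset.Ico n₀ (2 ^ t), ∃ f : Fin h → (Fin (P + 1) → Fin (t + 1)),
        ∑ i, ∏ p : Fin (P + 1), (p : ℕ) ^ (f i p : ℕ) = n := by
      intro n hn
      rw [Finset.mem_Ico] at hn
      obtain ⟨s, c1, c2, c3⟩ := hA n hn.1
      obtain ⟨l, rfl⟩ := Quot.exists_rep s
      have hl : l.length = h := by simpa using c1
      subst hl
      have hmem : ∀ i : Fin l.length, l.get i ∈ (l : Multiset ℕ) := by
        intro i
        rw [Multiset.mem_coe]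
        exact List.get_mem l i
      have hle : ∀ i : Fin l.length, l.get i < 2 ^ t := by
        intro i
        have h5 : l.get i ≤ (l : Multiset ℕ).sum := Multiset.single_le_sum (by simp) _ (hmem i)
        have h6 : (l : Multiset ℕ).sum = n := c3
        omega
      have hA' : ∀ i : Fin l.length, l.get i ∈ A := fun i => c2 _ (hmem i)
      have hne : ∀ i : Fin l.length, l.get i ≠ 0 := by
        intro i hi
        exact h0 (hi ▸ hA' i)
      have hfac : ∀ (i : Fin l.length) (p : ℕ), (l.get i).factorization p < t + 1 := by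
        intro i p
        have h7 : (l.get i).factorization p < l.get i := Nat.factorization_lt p (hne i)
        by_cases hp : p.Prime
        · have h8 : p ^ (l.get i).factorization p ≤ l.get i := Nat.ordProj_le p (hne i)
          have h9 : 2 ^ (l.get i).factorization p ≤ p ^ (l.get i).factorization p :=
            Nat.pow_le_pow_left hp.two_le _
          have h10 : 2 ^ (l.get i).factorization p < 2 ^ t := by
            have := hle i
            omega
          have := (Nat.pow_lt_pow_iff_right (by norm_num : 1 < 2)).1 h10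
          omega
        · rw [Nat.factorization_eq_zero_of_not_prime _ hp]
          omega
      refine ⟨fun i p => ⟨(l.get i).factorization p, hfac i p⟩, ?_⟩
      have hprod : ∀ i : Fin l.length,
          ∏ p : Fin (P + 1), (p : ℕ) ^ ((l.get i).factorization (p : ℕ)) = l.get i := by
        intro i
        rw [Fin.prod_univ_eq_prod_range (fun p => p ^ ((l.get i).factorization p)) (P + 1)]
        have h11 : (l.get i).factorization.support ⊆ Finset.range (P + 1) := by
          intro p hp
          rw [Nat.support_factorization, Nat.mem_primeFactors] at hp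
          rw [Finset.mem_range]
          have := hsm (l.get i) (hA' i) (hne i) p hp.1 hp.2.1
          omega
        have h12 := Nat.prod_factorization_pow_eq_self (hne i)
        rw [Finsupp.prod_of_support_subset _ h11 _ (fun p _ => pow_zero p)] at h12
        exact h12
      simp only [hprod]
      have h13 : (l : Multiset ℕ).sum = n := c3
      rw [Multiset.sum_coe] at h13
      rw [← h13, ← List.sum_ofFn, List.ofFn_get]
    choose! f hf using hex
    have hinj : Set.InjOn f (Finset.Ico n₀ (2 ^ t) : Finset ℕ) := by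
      intro a ha b hb hab
      rw [← hf a ha, ← hf b hb, hab]
    have hcard := Finset.card_le_card_of_injOn f (fun a _ => Finset.mem_univ (f a)) hinj
    rw [Nat.card_Ico, Finset.card_univ] at hcard
    simp only [Fintype.card_fun, Fintype.card_fin] at hcard
    omega
  -- exponential growth
  have hlim := tendsto_pow_const_div_const_pow_of_one_lt ((P + 1) * h) (by norm_num : (1 : ℝ) < 2)
  have hlim2 : Filter.Tendsto (fun t : ℕ => ((n₀ : ℝ) + ((t : ℝ) ^ ((P + 1) * h)) ) / 2 ^ t)
      Filter.atTop (nhds 0) := by
    have h1 : Filter.Tendsto (fun t : ℕ => (n₀ : ℝ) / 2 ^ t) Filter.atTop (nhds 0) := by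
      apply Filter.Tendsto.div_atTop tendsto_const_nhds
      exact tendsto_pow_atTop_atTop_of_one_lt (by norm_num)
    have := h1.add hlim
    simp only [add_zero] at this
    refine this.congr (fun t => ?_)
    rw [add_div]
  have hev := hlim2.eventually (gt_mem_nhds (by norm_num : (0 : ℝ) < 1 / 2))
  obtain ⟨T, hT⟩ := Filter.eventually_atTop.1 hev
  have h1 := hT (T + 1) (by omega)
  have h2 := key T
  rw [div_lt_iff₀ (by positivity)] at h1
  have h3 : ((2 : ℝ) ^ T) ≤ n₀ + (((T : ℝ) + 1) ^ ((P + 1) * h)) := by
    rw [pow_mul]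
    exact_mod_cast h2
  have h4 : ((T + 1 : ℕ) : ℝ) = (T : ℝ) + 1 := by push_cast; ring
  rw [h4] at h1
  have h5 : (2 : ℝ) ^ (T + 1) = 2 * 2 ^ T := by ring
  rw [h5] at h1
  linarith

theorem prod_mul_mem' (A : Set ℕ) (hmul : ∀ a ∈ A, ∀ b ∈ A, a * b ∈ A) (S : Finset ℕ)
    (hS : ∀ s ∈ S, s ∈ A) : ∀ a ∈ A, (∏ i ∈ S, i) * a ∈ A := by
  classical
  induction S using Finset.induction_on with
  | empty => intro a ha; simpa using ha
  | insert i S hi ih =>
    intro a ha
    rw [Finset.prod_insert hi, mul_assoc]
    exact hmul i (hS i (Finset.mem_insert_self _ _)) _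
      (ih (fun s hs => hS s (Finset.mem_insert_of_mem hs)) a ha)

theorem mul_closed (A : Set ℕ) (h : ℕ) (h2 : 2 ≤ h) (h0 : 0 ∉ A)
    (hmul : ∀ a ∈ A, ∀ b ∈ A, a * b ∈ A)
    (n₀ : ℕ) (hA : ∀ n, n₀ ≤ n → ∃ s, s ∈ reps A h n) (K : ℕ)
    (hK : ∀ n, (reps A h n).ncard ≤ K) : False := by
  classical
  choose! t ht using hA
  have hpos : ∀ a ∈ A, 0 < a := by
    intro a ha
    rcases Nat.eq_zero_or_pos a with h | h
    · exact absurd (h ▸ ha) h0
    · exact h
  have hfin : ∃ S : Finset ℕ, (∀ s ∈ S, s ∈ A ∧ n₀ ≤ s) ∧ ∀ m ∈ A, n₀ ≤ m → ∃ s ∈ S,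
      (t m).map (fun a => s * a) = (t s).map (fun a => m * a) := by
    by_contra hcon
    push Not at hcon
    have hk : ∀ k : ℕ, ∃ S : Finset ℕ, S.card = k ∧ (∀ s ∈ S, s ∈ A ∧ n₀ ≤ s) ∧
        (∀ s ∈ S, ∀ s' ∈ S, s ≠ s' →
          (t s).map (fun a => s' * a) ≠ (t s').map (fun a => s * a)) := by
      intro k
      induction k with
      | zero => exact ⟨∅, rfl, by simp, by simp⟩
      | succ k ih =>
        obtain ⟨S, hc, hS, hne⟩ := ih
        obtain ⟨m, hmA, hmn, hm⟩ := hcon S hS
        have hmS : m ∉ S := fun hmS => hm m hmS rfl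
        refine ⟨insert m S, by rw [Finset.card_insert_of_notMem hmS, hc], ?_, ?_⟩
        · intro s hs
          rcases Finset.mem_insert.1 hs with rfl | hs
          · exact ⟨hmA, hmn⟩
          · exact hS s hs
        · intro s hs s' hs' hss
          rcases Finset.mem_insert.1 hs with h3 | h3
          · rcases Finset.mem_insert.1 hs' with h4 | h4
            · exact absurd (h3.trans h4.symm) hss
            · rw [h3]
              exact hm s' h4
          · rcases Finset.mem_insert.1 hs' with h4 | h4
            · rw [h4]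
              exact fun h5 => hm s h3 h5.symm
            · exact hne s h3 s' h4 hss
    obtain ⟨S, hc, hS, hne⟩ := hk (K + 1)
    have h3 : S.card ≤ (reps A h (∏ i ∈ S, i)).ncard := by
      refine card_le A h S _ (fun i => (t i).map (fun a => (∏ j ∈ S.erase i, j) * a)) ?_ ?_
      · intro i hi
        have := scale_mem A h i (∏ j ∈ S.erase i, j)
          (prod_mul_mem' A hmul _ (fun s hs => (hS s (Finset.mem_of_mem_erase hs)).1)) (t i)
          (ht i (hS i hi).2)
        rwa [Finset.prod_erase_mul S (fun j => j) hi] at this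
      · intro i hi j hj hij
        by_contra hij'
        apply hne i hi j hj hij'
        have hjm : j ∈ S.erase i := Finset.mem_erase.2 ⟨fun h => hij' h.symm, hj⟩
        have him : i ∈ S.erase j := Finset.mem_erase.2 ⟨hij', hi⟩
        have e1 : (∏ k ∈ S.erase i, k) = (∏ k ∈ (S.erase i).erase j, k) * j :=
          (Finset.prod_erase_mul _ (fun k => k) hjm).symm
        have e2 : (∏ k ∈ S.erase j, k) = (∏ k ∈ (S.erase i).erase j, k) * i := by
          rw [Finset.erase_right_comm]
          exact (Finset.prod_erase_mul _ (fun k => k) him).symm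
        set Q := ∏ k ∈ (S.erase i).erase j, k with hQ
        have hQ0 : 0 < Q := Finset.prod_pos (fun k hk =>
          hpos k (hS k (Finset.mem_of_mem_erase (Finset.mem_of_mem_erase hk))).1)
        have hinj : Function.Injective (Multiset.map (fun x : ℕ => Q * x)) :=
          Multiset.map_injective (fun x y hxy => Nat.eq_of_mul_eq_mul_left hQ0 hxy)
        apply hinj
        rw [Multiset.map_map, Multiset.map_map]
        simp only [e1, e2] at hij
        convert hij using 2
        · simp only [Function.comp_apply]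
          ring
        · simp only [Function.comp_apply]
          ring
    have := hK (∏ i ∈ S, i)
    omega
  obtain ⟨S, hS, hall⟩ := hfin
  set P := max n₀ (S.sup id) with hP
  refine not_smooth A h P ?_ h0 n₀ (fun n hn => ⟨t n, ht n hn⟩)
  intro a ha hane p hp hpa
  by_contra hpP
  push Not at hpP
  have hpn : n₀ < p := lt_of_le_of_lt (le_max_left _ _) hpP
  have hpS : ∀ s ∈ S, s < p := fun s hs =>
    lt_of_le_of_lt ((Finset.le_sup (f := id) hs).trans (le_max_right _ _)) hpP
  -- minimal element divisible by p
  have hnone : ∀ m : ℕ, m ∈ A → ¬ p ∣ m := by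
    intro m
    induction m using Nat.strong_induction_on with
    | _ m ih =>
      intro hmA hpm
      have hm0 := hpos m hmA
      have hmn : n₀ ≤ m := (le_of_lt hpn).trans (Nat.le_of_dvd hm0 hpm)
      obtain ⟨s, hs, hst⟩ := hall m hmA hmn
      have hs0 := hpos s (hS s hs).1
      obtain ⟨c1, c2, c3⟩ := ht m hmn
      have hcard : 0 < Multiset.card (t m) := by omega
      obtain ⟨x, hx⟩ := Multiset.card_pos_iff_exists_mem.1 hcard
      have hxA := c2 x hx
      have hx1 : s * x ∈ (t s).map (fun a => m * a) := by
        rw [← hst]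
        exact Multiset.mem_map_of_mem (fun a => s * a) hx
      obtain ⟨b, _, hb⟩ := Multiset.mem_map.1 hx1
      have hpx : p ∣ x := by
        have h5 : p ∣ s * x := ⟨m / p * b, by
          rw [← hb]
          obtain ⟨c, rfl⟩ := hpm
          rw [Nat.mul_div_cancel_left c hp.pos]
          ring⟩
        rcases (Nat.Prime.dvd_mul hp).1 h5 with h6 | h6
        · exact absurd (Nat.le_of_dvd hs0 h6) (not_le.2 (hpS s hs))
        · exact h6
      have hxm : x < m := by
        obtain ⟨s', hs'⟩ := Multiset.exists_cons_of_mem hx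
        rw [hs'] at c1 c3 c2
        rw [Multiset.card_cons] at c1
        rw [Multiset.sum_cons] at c3
        have hcard' : 0 < Multiset.card s' := by omega
        obtain ⟨b', hb'⟩ := Multiset.card_pos_iff_exists_mem.1 hcard'
        have h7 : b' ≤ s'.sum := Multiset.single_le_sum (by simp) _ hb'
        have h8 := hpos b' (c2 b' (Multiset.mem_cons_of_mem hb'))
        omega
      exact ih x hxm hxA hpx
  exact hnone a ha hpa

end Pool.Agent.W20.ET
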